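import Mathlib
import Pool.Agent.Q10.Basic

/-!
# Strongly weakly nil-clean rings are exactly the semi-potent WUU rings
-/

open MulOpposite

namespace Pool.Agent.Results.MP_2093e0_al.SemipotentWUU

section Defs

variable {R : Type*} [Ring R]

/-- `a` is strongly nil-clean: `a = e + b` with `e` idempotent, `b` nilpotent and `e b = b e`. -/
def StronglyNilClean (a : R) : Prop :=
  ∃ e b : R, IsIdempotentElem e ∧ IsNilpotent b ∧ e * b = b * e ∧ a = e + b

/-- `R` is strongly weakly nil-clean: for every `a`, at least one of `a`, `-a` is strongly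
nil-clean. -/
def StronglyWeaklyNilClean (R : Type*) [Ring R] : Prop :=
  ∀ a : R, StronglyNilClean a ∨ StronglyNilClean (-a)

/-- `R` is WUU: every unit is `n + 1` or `n - 1` with `n` nilpotent. -/
def WUU (R : Type*) [Ring R] : Prop :=
  ∀ u : R, IsUnit u → ∃ n : R, IsNilpotent n ∧ (u = n + 1 ∨ u = n - 1)

/-- `R` is semi-potent: every right ideal not contained in the Jacobson radical contains a nonzero
idempotent. -/
def SemiPotent (R : Type*) [Ring R] : Prop :=
  ∀ I : Submodule Rᵐᵒᵖ R, ¬ (I : Set R) ⊆ Ring.jacobson R →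
    ∃ e ∈ I, e ≠ 0 ∧ IsIdempotentElem e

end Defs

section Forward

variable {R : Type*} [Ring R]

theorem unit_of_snc {v : R} (hv : IsUnit v) (h : StronglyNilClean v) : IsNilpotent (v - 1) := by
  obtain ⟨e, b, he, hb, heb, rfl⟩ := h
  have hcomm : Commute (e + b) b := by
    change (e + b) * b = b * (e + b)
    rw [add_mul, mul_add, heb]
  have hu : IsUnit e := by
    have h1 : e = (e + b) + (-b) := by abel
    rw [h1]
    exact hb.neg.isUnit_add_left_of_commute hv hcomm.neg_right.symm
  have he1 : e = 1 := by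
    obtain ⟨w, hw⟩ := hu
    have h2 : (w : R) * w = w := by rw [hw]; exact he
    rw [← hw]
    calc (w : R) = (w⁻¹ : Rˣ) * ((w : R) * w) := by rw [← mul_assoc, Units.inv_mul, one_mul]
      _ = 1 := by rw [h2, Units.inv_mul]
  rw [he1, add_sub_cancel_left]
  exact hb

theorem wuu_of_swnc (h : StronglyWeaklyNilClean R) : WUU R := by
  intro u hu
  rcases h u with h1 | h1
  · exact ⟨u - 1, unit_of_snc hu h1, Or.inl (by abel)⟩
  · have h2 := unit_of_snc hu.neg h1
    refine ⟨u + 1, ?_, Or.inr (by abel)⟩
    have h3 : u + 1 = -(-u - 1) := by abel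
    rw [h3]
    exact h2.neg

theorem semipotent_of_swnc (h : StronglyWeaklyNilClean R) : SemiPotent R := by
  intro I hI
  by_contra hno
  push Not at hno
  apply hI
  intro c hc
  -- every element of `I` is nilpotent
  have hnil : ∀ c ∈ I, IsNilpotent c := by
    have aux : ∀ c ∈ I, StronglyNilClean c → IsNilpotent c := by
      rintro c hc ⟨e, b, he, hb, heb, rfl⟩
      obtain ⟨w, hw⟩ := hb.isUnit_one_add
      have h1 : (e + b) * (e * (w⁻¹ : Rˣ)) = e := by
        have h2 : (e + b) * e = e * (1 + b) := by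
          rw [add_mul, he.eq, mul_add, mul_one, heb]
        rw [← mul_assoc, h2, ← hw, mul_assoc, Units.mul_inv, mul_one]
      have h2 : e ∈ I := by
        have := I.smul_mem (op (e * (w⁻¹ : Rˣ))) hc
        rw [op_smul_eq_mul, h1] at this
        exact this
      have h3 : e = 0 := by
        by_contra h0
        exact hno e h2 h0 he
      rw [h3, zero_add]
      exact hb
    intro c hc
    rcases h c with h1 | h1
    · exact aux c hc h1
    · have := (aux (-c) (I.neg_mem hc) h1).neg
      rwa [neg_neg] at this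
  apply Q10.mem_jacobson_of_isUnit
  intro r
  have h1 : c * r ∈ I := by
    have := I.smul_mem (op r) hc
    rwa [op_smul_eq_mul] at this
  obtain ⟨n, hn⟩ := hnil _ h1
  have h2 : IsNilpotent (r * c) := by
    refine ⟨n + 1, ?_⟩
    have h3 : ∀ k : ℕ, (r * c) ^ (k + 1) = r * (c * r) ^ k * c := by
      intro k
      induction k with
      | zero => simp
      | succ k ih => rw [pow_succ, ih, pow_succ]; simp only [mul_assoc]
    rw [h3, hn]; simp
  obtain ⟨w, hw⟩ := h2.isUnit_one_add
  exact ⟨(w⁻¹ : Rˣ), by rw [← hw, Units.inv_mul]⟩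

end Forward

section Semiprimitive

/-! ### A WUU ring in which every nonzero principal right ideal contains a nonzero idempotent -/

variable {S : Type*} [Ring S]
  (h1 : ∀ x : S, x ≠ 0 → ∃ r : S, x * r ≠ 0 ∧ (x * r) * (x * r) = x * r) (h2 : WUU S)

include h1 h2

/-- Such a ring is reduced. -/
theorem reduced (x : S) (hx : x * x = 0) : x = 0 := by
  by_contra hx0
  obtain ⟨r, hf0, hff⟩ := h1 x hx0
  obtain ⟨f, hf⟩ : ∃ f, f = x * r := ⟨_, rfl⟩
  rw [← hf] at hf0 hff
  obtain ⟨r', hr'⟩ : ∃ r', r' = r * f := ⟨_, rfl⟩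
  have hxr' : x * r' = f := by rw [hr', ← mul_assoc, ← hf, hff]
  obtain ⟨g, hg⟩ : ∃ g, g = r' * x := ⟨_, rfl⟩
  have hr'f : r' * f = r' := by rw [hr', mul_assoc, hff]
  have hgr' : g * r' = r' := by rw [hg, mul_assoc, hxr', hr'f]
  have hxf : x * f = 0 := by rw [hf, ← mul_assoc, hx, zero_mul]
  have hgx : g * x = 0 := by rw [hg, mul_assoc, hx, mul_zero]
  have hgf : g * f = 0 := by rw [hg, mul_assoc, hxf, mul_zero]
  have hgg : g * g = g := by
    calc g * g = (g * r') * x := by rw [mul_assoc, ← hg]
      _ = g := by rw [hgr', hg]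
  obtain ⟨p, hp⟩ : ∃ p, p = f - f * g := ⟨_, rfl⟩
  have hpg : p * g = 0 := by rw [hp, sub_mul, mul_assoc, hgg, sub_self]
  have hgp : g * p = 0 := by rw [hp, mul_sub, ← mul_assoc, hgf]; simp
  have hpf : p * f = f := by rw [hp, sub_mul, mul_assoc, hgf, hff]; simp
  have hpp : p * p = p := by
    have : p * p = f * p - f * (g * p) := by
      rw [← mul_assoc, ← sub_mul, ← hp]
    rw [this, hgp, mul_zero, sub_zero, hp, mul_sub, ← mul_assoc, hff]
  have hp0 : p ≠ 0 := by
    intro h0
    rw [h0, zero_mul] at hpf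
    exact hf0 hpf.symm
  -- matrix units `p, g, a, b`
  obtain ⟨a, ha⟩ : ∃ a, a = f * x := ⟨_, rfl⟩
  obtain ⟨b, hb⟩ : ∃ b, b = r' - r' * g := ⟨_, rfl⟩
  have hfx : f * x = x * g := by
    rw [hg, ← mul_assoc, hxr']
  have hga : g * a = 0 := by rw [ha, ← mul_assoc, hgf, zero_mul]
  have hag : a * g = a := by rw [ha, hfx, mul_assoc, hgg]
  have hpa : p * a = a := by
    rw [hp, sub_mul, mul_assoc, hga, mul_zero, sub_zero, ha, ← mul_assoc, hff]
  have hab : a * b = p := by
    rw [hb, mul_sub, ha, hfx, mul_assoc x g r', hgr', hxr', mul_assoc x g (r' * g),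
      ← mul_assoc g r' g, hgr', ← mul_assoc x r' g, hxr', hp]
  have hba : b * a = g := by
    rw [hb, sub_mul, mul_assoc r' g a, hga, mul_zero, sub_zero, ha, ← mul_assoc, hr'f, hg]
  have hbg : b * g = 0 := by rw [hb, sub_mul, mul_assoc, hgg, sub_self]
  have hgb : g * b = b := by rw [hb, mul_sub, ← mul_assoc, hgr']
  have hap : a * p = 0 := by rw [← hag, mul_assoc, hgp, mul_zero]
  have haa : a * a = 0 := by
    calc a * a = a * (p * a) := by rw [hpa]
      _ = 0 := by rw [← mul_assoc, hap, zero_mul]
  have hbp : b * p = b := by rw [← hab, ← mul_assoc, hba, hgb]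
  have hpb : p * b = 0 := by rw [← hgb, ← mul_assoc, hpg, zero_mul]
  have hbb : b * b = 0 := by
    calc b * b = b * (g * b) := by rw [hgb]
      _ = 0 := by rw [← mul_assoc, hbg, zero_mul]
  -- the unit
  obtain ⟨u, hu⟩ : ∃ u : S, u = 1 - g + a + b := ⟨_, rfl⟩
  obtain ⟨v, hv⟩ : ∃ v : S, v = 1 - p - 2 * g + a + b := ⟨_, rfl⟩
  have huv : u * v = 1 := by
    have : u * v = 1 - p - 2 * g + a + b - g + g * p + 2 * (g * g) - g * a - g * b
      + a - a * p - 2 * (a * g) + a * a + a * b + b - b * p - 2 * (b * g) + b * a + b * b := by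
      rw [hu, hv]; noncomm_ring
    rw [this, hgp, hgg, hga, hgb, hap, hag, haa, hab, hbp, hbg, hba, hbb]
    noncomm_ring
  have hvu : v * u = 1 := by
    have : v * u = 1 - g + a + b - p + p * g - p * a - p * b - 2 * g + 2 * (g * g) - 2 * (g * a)
      - 2 * (g * b) + a - a * g + a * a + a * b + b - b * g + b * a + b * b := by
      rw [hu, hv]; noncomm_ring
    rw [this, hpg, hpa, hpb, hgg, hga, hgb, hag, haa, hab, hbg, hba, hbb]
    noncomm_ring
  obtain ⟨n, ⟨k, hk⟩, hn⟩ := h2 u ⟨⟨u, v, huv, hvu⟩, rfl⟩
  have hp1 : ∀ (n z e : S), z * n = e → e * p = p →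
      e * e = e → e * n = n * e → n ^ k ≠ 0 := by
    intro n z e hzn hep hee hen hk
    have : ∀ k : ℕ, z ^ k * n ^ k * e = e := by
      intro k
      induction k with
      | zero => simp
      | succ k ih =>
        calc z ^ (k + 1) * n ^ (k + 1) * e = z ^ k * (z * n) * n ^ k * e := by
              rw [pow_succ z, pow_succ' n]; simp only [mul_assoc]
          _ = z ^ k * e * n ^ k * e := by rw [hzn]
          _ = z ^ k * (e * n ^ k) * e := by simp only [mul_assoc]
          _ = z ^ k * (n ^ k * e) * e := by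
              have : Commute e (n ^ k) := (show Commute e n from hen).pow_right k
              rw [this.eq]
          _ = z ^ k * n ^ k * e := by simp only [mul_assoc, hee]
          _ = e := ih
    have h3 := this k
    rw [hk, mul_zero, zero_mul] at h3
    rw [← h3, zero_mul] at hep
    exact hp0 hep.symm
  have hpe : (p + g) * (p + g) = p + g := by
    rw [add_mul, mul_add, mul_add, hpp, hpg, hgp, hgg]; abel
  have hep : (p + g) * p = p := by rw [add_mul, hpp, hgp, add_zero]
  rcases hn with hn | hn
  · -- `n = u - 1 = a + b - g`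
    have hn' : n = a + b - g := by
      have : n = u - 1 := by rw [hn]; abel
      rw [this, hu]; abel
    subst hn'
    refine hp1 (a + b - g) (p + a + b) (p + g) ?_ hep hpe ?_ hk
    · have : (p + a + b) * (a + b - g) = p * a + p * b - p * g + a * a + a * b - a * g
        + b * a + b * b - b * g := by noncomm_ring
      rw [this, hpa, hpb, hpg, haa, hab, hag, hba, hbb, hbg]; abel
    · have e1 : (p + g) * (a + b - g) = p * a + p * b - p * g + g * a + g * b - g * g := by
        noncomm_ring
      have e2 : (a + b - g) * (p + g) = a * p + a * g + b * p + b * g - g * p - g * g := by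
        noncomm_ring
      rw [e1, e2, hpa, hpb, hpg, hga, hgb, hgg, hap, hag, hbp, hbg, hgp]; abel
  · -- `n = u + 1 = 2 - g + a + b`
    have hn' : n = 2 - g + a + b := by
      have : n = u + 1 := by rw [hn]; abel
      have h5 : (2 : S) = 1 + 1 := by norm_num
      rw [this, hu, h5]; abel
    subst hn'
    refine hp1 (2 - g + a + b) (p - a - b + 2 * g) (p + g) ?_ hep hpe ?_ hk
    · have : (p - a - b + 2 * g) * (2 - g + a + b) = 2 * p - p * g + p * a + p * b
        - 2 * a + a * g - a * a - a * b - 2 * b + b * g - b * a - b * b + 4 * g - 2 * (g * g)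
        + 2 * (g * a) + 2 * (g * b) := by noncomm_ring
      rw [this, hpg, hpa, hpb, hag, haa, hab, hbg, hba, hbb, hgg, hga, hgb]; noncomm_ring
    · have e1 : (p + g) * (2 - g + a + b) = 2 * p - p * g + p * a + p * b + 2 * g - g * g + g * a
          + g * b := by
        noncomm_ring
      have e2 : (2 - g + a + b) * (p + g) = 2 * p + 2 * g - g * p - g * g + a * p + a * g
          + b * p + b * g := by
        noncomm_ring
      rw [e1, e2, hpa, hpb, hpg, hga, hgb, hgg, hap, hag, hbp, hbg, hgp]; noncomm_ring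

/-- In such a ring, every unit is `1` or `-1`. -/
theorem unit_eq (u : S) (hu : IsUnit u) : u = 1 ∨ u = -1 := by
  have hnil : ∀ n : S, IsNilpotent n → n = 0 := by
    have : ∀ k : ℕ, ∀ n : S, n ^ k = 0 → n = 0 ∨ (1 : S) = 0 := by
      intro k
      induction k using Nat.strong_induction_on with
      | _ k ih =>
        intro n hk
        rcases Nat.lt_or_ge k 2 with hk2 | hk2
        · interval_cases k
          · right; simpa using hk
          · left; simpa using hk
        · have : n ^ (k - 1) * n ^ (k - 1) = 0 := by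
            rw [← pow_add]
            exact pow_eq_zero_of_le (by omega) hk
          exact ih (k - 1) (by omega) n (reduced h1 h2 _ this)
    rintro n ⟨k, hk⟩
    rcases this k n hk with h | h
    · exact h
    · rw [← mul_one n, h, mul_zero]
  obtain ⟨n, hn, h | h⟩ := h2 u hu
  · left; rw [h, hnil n hn, zero_add]
  · right; rw [h, hnil n hn, zero_sub]

/-- In such a ring, `a² = a` or `a² = -a` for every `a`. -/
theorem idem_or (a : S) : a * a = a ∨ a * a = -a := by
  have hred := reduced h1 h2
  have hunit := unit_eq h1 h2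
  -- idempotents are central
  have hcent : ∀ e : S, e * e = e → ∀ z, e * z = z * e := by
    intro e he z
    have k1 : e * z - e * z * e = 0 := by
      apply hred
      have : (e * z - e * z * e) * (e * z - e * z * e) =
        (e * z - e * z * e) * e * z - (e * z - e * z * e) * e * z * e := by noncomm_ring
      have h0 : (e * z - e * z * e) * e = 0 := by
        rw [sub_mul, mul_assoc (e * z) e e, he, sub_self]
      rw [this, h0]; simp
    have k2 : z * e - e * z * e = 0 := by
      apply hred
      have : (z * e - e * z * e) * (z * e - e * z * e) =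
        z * (e * (z * e - e * z * e)) - e * z * (e * (z * e - e * z * e)) := by noncomm_ring
      have h0 : e * (z * e - e * z * e) = 0 := by
        rw [mul_sub, ← mul_assoc e (e * z) e, ← mul_assoc e e z, he, ← mul_assoc, sub_self]
      rw [this, h0]; simp
    rw [sub_eq_zero.mp k1, ← sub_eq_zero.mp k2]
  -- one-sided inverses are two-sided
  have hded : ∀ x y : S, x * y = 1 → y * x = 1 := by
    intro x y hxy
    have he : (y * x) * (y * x) = y * x := by
      rw [mul_assoc, ← mul_assoc x y x, hxy, one_mul]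
    have := hcent _ he y
    have h3 : y * x * y = y := by rw [mul_assoc, hxy, mul_one]
    rw [h3] at this
    calc y * x = (x * y) * (y * x) := by rw [hxy, one_mul]
      _ = x * (y * (y * x)) := by rw [mul_assoc]
      _ = 1 := by rw [← this, hxy]
  -- `a³ = a`
  have hcube : a * a * a - a = 0 := by
    by_contra h0
    obtain ⟨r, he0, hee⟩ := h1 _ h0
    set e := (a * a * a - a) * r with he
    have hc := hcent e hee
    set x := a * e + (1 - e) with hx
    set y := (a * a - 1) * r * e + (1 - e) with hy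
    have hxy : x * y = 1 := by
      have e1 : x * y = a * (e * ((a * a - 1) * r)) * e + a * (e * (1 - e)) +
          ((1 - e) * ((a * a - 1) * r)) * e + (1 - e) * (1 - e) := by
        rw [hx, hy]; noncomm_ring
      have e2 : e * (1 - e) = 0 := by rw [mul_sub, mul_one, hee, sub_self]
      have e3 : (1 - e) * ((a * a - 1) * r) * e = 0 := by
        rw [mul_assoc, ← hc, ← mul_assoc, sub_mul, one_mul, hee, sub_self, zero_mul]
      have e4 : (1 - e) * (1 - e) = 1 - e := by
        rw [mul_sub, sub_mul, sub_mul, hee]; noncomm_ring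
      have e5 : a * (e * ((a * a - 1) * r)) * e = e := by
        rw [hc]
        have : a * ((a * a - 1) * r * e) * e = (a * a * a - a) * r * (e * e) := by noncomm_ring
        rw [this, ← he, hee, hee]
      rw [e1, e2, e3, e4, e5]; simp
    have hyx := hded x y hxy
    have hxe : x * e = a * e := by
      rw [hx, add_mul, mul_assoc, hee, sub_mul, one_mul, hee]; simp
    have hae : a * e = e ∨ a * e = -e := by
      rcases hunit x ⟨⟨x, y, hxy, hyx⟩, rfl⟩ with h | h
      · left; rw [← hxe, h, one_mul]
      · right; rw [← hxe, h, neg_one_mul]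
    have hae3 : (a * a * a - a) * e = 0 := by
      have : (a * a * a - a) * e = a * (a * (a * e)) - a * e := by noncomm_ring
      rw [this]
      rcases hae with h | h
      · rw [h, h, h, sub_self]
      · rw [h, mul_neg, h, neg_neg, h, sub_self]
    apply he0
    have : e = (a * a * a - a) * e * r := by
      conv_lhs => rw [← hee]
      conv_lhs => rw [he]
      rw [← he, mul_assoc, ← hc, ← mul_assoc]
    rw [this, hae3, zero_mul]
  have hcube' : a * a * a = a := sub_eq_zero.mp hcube
  have hcube'' : a * (a * a) = a := by rw [← mul_assoc]; exact hcube'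
  set e := a * a with he
  have hee : e * e = e := by rw [he, ← mul_assoc, hcube']
  have hsq : (a + (1 - e)) * (a + (1 - e)) = 1 := by
    have : (a + (1 - e)) * (a + (1 - e)) = a * a + (a - a * e) + (a - e * a) +
      (1 - e - e + e * e) := by noncomm_ring
    rw [this, hee, hcube'', hcube', ← he]; noncomm_ring
  have hunit' : a + (1 - e) = 1 ∨ a + (1 - e) = -1 := hunit _ ⟨⟨_, _, hsq, hsq⟩, rfl⟩
  rcases hunit' with h | h
  · left
    have : e = a := by
      have h3 : a + (1 - e) - 1 = 0 := by rw [h, sub_self]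
      have h4 : a - e = 0 := by rw [← h3]; abel
      exact (sub_eq_zero.mp h4).symm
    exact this
  · right
    have h3 : (a + (1 - e)) * e = -e := by rw [h, neg_one_mul]
    rw [add_mul, hcube'', sub_mul, one_mul, hee, sub_self, add_zero] at h3
    rw [h3, neg_neg]

end Semiprimitive

section Backward

variable {R : Type*} [Ring R]

theorem jacobson_nil (h : WUU R) (j : R) (hj : j ∈ Ring.jacobson R) : IsNilpotent j := by
  obtain ⟨n, hn, h1 | h1⟩ := h _ (Q10.isUnit_one_add_of_mem_jacobson hj)
  · have : j = n := by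
      have : j = 1 + j - 1 := by abel
      rw [this, h1]; abel
    rw [this]; exact hn
  · -- `n = j + 2`
    have hjn : j = n - 2 := by
      have h3 : j = 1 + j - 1 := by abel
      have h5 : (2 : R) = 1 + 1 := by norm_num
      rw [h3, h1, h5]; abel
    -- some power of `2` is in the radical
    obtain ⟨k, hk⟩ := hn
    have h2k : (2 : R) ^ k ∈ Ring.jacobson R := by
      have hmk : (Ideal.Quotient.mk (Ring.jacobson R)) (2 ^ k) = 0 := by
        have h4 : (Ideal.Quotient.mk (Ring.jacobson R)) 2 =
            (Ideal.Quotient.mk (Ring.jacobson R)) n := by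
          rw [Ideal.Quotient.mk_eq_mk_iff_sub_mem]
          have : 2 - n = -j := by rw [hjn]; abel
          rw [this]
          exact neg_mem hj
        rw [map_pow, h4, ← map_pow, hk, map_zero]
      exact Ideal.Quotient.eq_zero_iff_mem.mp hmk
    -- `3` is a unit
    have h3u : IsUnit (3 : R) := by
      have hz : IsUnit (1 + -((-2 : R) ^ k)) := by
        apply Q10.isUnit_one_add_of_mem_jacobson
        apply neg_mem
        have : (-2 : R) ^ k = (-1) ^ k * 2 ^ k := by rw [neg_eq_neg_one_mul, (Commute.neg_one_left (2 : R)).mul_pow]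
        rw [this]
        exact Ideal.mul_mem_left _ _ h2k
      have hg : (∑ i ∈ Finset.range k, (-2 : R) ^ i) * 3 = 1 + -((-2 : R) ^ k) := by
        have := geom_sum_mul_neg (-2 : R) k
        have h5 : (1 - -2 : R) = 3 := by norm_num
        rw [h5] at this
        rw [this]; abel
      have hcomm : Commute (∑ i ∈ Finset.range k, (-2 : R) ^ i) 3 := Nat.commute_cast _ 3
      have h6 : IsUnit ((∑ i ∈ Finset.range k, (-2 : R) ^ i) * 3) := by rw [hg]; exact hz
      exact (hcomm.isUnit_mul_iff.mp h6).2
    -- hence `2` is nilpotent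
    have h2n : IsNilpotent (2 : R) := by
      obtain ⟨m, hm, h7 | h7⟩ := h 3 h3u
      · have : m = 2 := by
          have : m = m + 1 - 1 := by abel
          rw [this, ← h7]; norm_num
        rw [← this]; exact hm
      · have : m = 2 * 2 := by
          have : m = m - 1 + 1 := by abel
          rw [this, ← h7]; norm_num
        obtain ⟨l, hl⟩ := hm
        refine ⟨2 * l, ?_⟩
        rw [pow_mul, pow_two, ← this, hl]
    rw [hjn]
    exact (Nat.commute_cast n 2 : Commute n ((2 : ℕ) : R)).isNilpotent_sub ⟨k, hk⟩ h2n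

theorem snc_of_nilpotent (a : R) (h : IsNilpotent (a ^ 2 - a)) : StronglyNilClean a := by
  obtain ⟨n, hn⟩ := h
  have hn' : (a - a ^ 2) ^ (n + 1) = 0 := by
    have : a - a ^ 2 = -(a ^ 2 - a) := by abel
    rw [this, pow_succ, neg_pow, hn]; simp
  have hid := isIdempotentElem_one_sub_one_sub_pow_pow a (n + 1) hn'
  set e := 1 - (1 - a ^ (n + 1)) ^ (n + 1) with he
  -- divisibility in `ℤ[X]`
  have hdvd : (Polynomial.X ^ 2 - Polynomial.X : Polynomial ℤ) ∣
      Polynomial.X - (1 - (1 - Polynomial.X ^ (n + 1)) ^ (n + 1)) := by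
    rw [← Ideal.mem_span_singleton, ← Ideal.Quotient.eq_zero_iff_mem]
    set x := Ideal.Quotient.mk (Ideal.span {(Polynomial.X ^ 2 - Polynomial.X : Polynomial ℤ)})
      Polynomial.X with hx
    have hxx : IsIdempotentElem x := by
      change x * x = x
      rw [hx, ← map_mul, ← sub_eq_zero, ← map_sub, Ideal.Quotient.eq_zero_iff_mem,
        ← pow_two]
      exact Ideal.subset_span rfl
    simp only [map_sub, map_one, map_pow, ← hx]
    rw [hxx.pow_succ_eq, hxx.one_sub.pow_succ_eq]
    ring
  obtain ⟨q, hq⟩ := hdvd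
  have haq : a - e = (a ^ 2 - a) * Polynomial.aeval a q := by
    have := congrArg (Polynomial.aeval a) hq
    simpa [he] using this
  have hcomm : Commute (a ^ 2 - a) (Polynomial.aeval a q) := by
    have h1 : a ^ 2 - a = Polynomial.aeval a (Polynomial.X ^ 2 - Polynomial.X : Polynomial ℤ) := by
      simp
    rw [h1]
    exact (Commute.all _ q).map (Polynomial.aeval a)
  have hea : e * (a - e) = (a - e) * e := by
    have h1 : Commute e a := by
      rw [he]
      exact (Commute.one_left a).sub_left
        (((Commute.one_left a).sub_left ((Commute.refl a).pow_left _)).pow_left _)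
    exact (h1.sub_right (Commute.refl e)).eq
  refine ⟨e, a - e, hid, ?_, hea, by abel⟩
  rw [haq]
  exact hcomm.isNilpotent_mul_right ⟨n, hn⟩

theorem swnc_of (hS : SemiPotent R) (hW : WUU R) : StronglyWeaklyNilClean R := by
  have hnil := jacobson_nil hW
  -- the two properties for the quotient
  have h1 : ∀ x : R ⧸ Ring.jacobson R, x ≠ 0 →
      ∃ r : R ⧸ Ring.jacobson R, x * r ≠ 0 ∧ (x * r) * (x * r) = x * r := by
    intro x' hx
    obtain ⟨x, rfl⟩ := Ideal.Quotient.mk_surjective x'
    have hxJ : x ∉ Ring.jacobson R := fun h => hx (Ideal.Quotient.eq_zero_iff_mem.mpr h)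
    have hxI : x ∈ Submodule.span Rᵐᵒᵖ {x} := Submodule.mem_span_singleton_self x
    obtain ⟨e, heI, he0, hee⟩ := hS (Submodule.span Rᵐᵒᵖ {x}) (fun h => hxJ (h hxI))
    obtain ⟨r, hr⟩ := Submodule.mem_span_singleton.mp heI
    have hr' : x * r.unop = e := hr
    refine ⟨Ideal.Quotient.mk _ r.unop, ?_, ?_⟩
    · rw [← map_mul, hr']
      intro h0
      obtain ⟨k, hk⟩ := hnil e (Ideal.Quotient.eq_zero_iff_mem.mp h0)
      apply he0
      rcases Nat.eq_zero_or_pos k with rfl | hk0
      · rw [pow_zero] at hk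
        rw [← mul_one e, hk, mul_zero]
      · obtain ⟨l, rfl⟩ := Nat.exists_eq_succ_of_ne_zero hk0.ne'
        rw [Nat.succ_eq_add_one, hee.pow_succ_eq] at hk
        exact hk
    · rw [← map_mul, hr', ← map_mul, hee.eq]
  have h2 : WUU (R ⧸ Ring.jacobson R) := by
    rintro u' ⟨w, hw⟩
    obtain ⟨u, hu⟩ := Ideal.Quotient.mk_surjective u'
    obtain ⟨v, hv⟩ := Ideal.Quotient.mk_surjective ((w⁻¹ : (R ⧸ Ring.jacobson R)ˣ) :
      R ⧸ Ring.jacobson R)
    have huv : IsUnit (u * v) := by
      have : u * v = 1 + (u * v - 1) := by abel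
      rw [this]
      apply Q10.isUnit_one_add_of_mem_jacobson
      rw [← Ideal.Quotient.eq_zero_iff_mem, map_sub, map_mul, hu, hv, ← hw, Units.mul_inv]
      simp
    have hvu : IsUnit (v * u) := by
      have : v * u = 1 + (v * u - 1) := by abel
      rw [this]
      apply Q10.isUnit_one_add_of_mem_jacobson
      rw [← Ideal.Quotient.eq_zero_iff_mem, map_sub, map_mul, hu, hv, ← hw, Units.inv_mul]
      simp
    have huu : IsUnit u := by
      obtain ⟨p, hp⟩ := huv
      obtain ⟨q, hq⟩ := hvu
      have e1 : u * (v * (p⁻¹ : Rˣ)) = 1 := by rw [← mul_assoc, ← hp, Units.mul_inv]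
      have e2 : ((q⁻¹ : Rˣ) * v) * u = 1 := by rw [mul_assoc, ← hq, Units.inv_mul]
      have e3 : ((q⁻¹ : Rˣ) : R) * v = v * (p⁻¹ : Rˣ) := by
        calc ((q⁻¹ : Rˣ) : R) * v = ((q⁻¹ : Rˣ) * v) * (u * (v * (p⁻¹ : Rˣ))) := by
              rw [e1, mul_one]
          _ = (((q⁻¹ : Rˣ) * v) * u) * (v * (p⁻¹ : Rˣ)) := by simp only [mul_assoc]
          _ = v * (p⁻¹ : Rˣ) := by rw [e2, one_mul]
      exact ⟨⟨u, v * (p⁻¹ : Rˣ), e1, by rw [← e3]; exact e2⟩, rfl⟩
    obtain ⟨n, hn, h3 | h3⟩ := hW u huu
    · exact ⟨Ideal.Quotient.mk _ n, hn.map _, Or.inl (by rw [← hu, h3]; simp)⟩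
    · exact ⟨Ideal.Quotient.mk _ n, hn.map _, Or.inr (by rw [← hu, h3]; simp)⟩
  intro a
  rcases idem_or h1 h2 (Ideal.Quotient.mk _ a) with h | h
  · left
    apply snc_of_nilpotent
    apply hnil
    rw [← Ideal.Quotient.eq_zero_iff_mem, map_sub, map_pow, pow_two, h, sub_self]
  · right
    apply snc_of_nilpotent
    apply hnil
    rw [← Ideal.Quotient.eq_zero_iff_mem, map_sub, map_pow, map_neg, pow_two, neg_mul_neg, h]
    simp

end Backward

/-- A ring is strongly weakly nil-clean if and only if it is semi-potent and WUU. -/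
theorem result : ∀ (R : Type*) [Ring R], StronglyWeaklyNilClean R ↔ SemiPotent R ∧ WUU R := by
  intro R _
  exact ⟨fun h => ⟨semipotent_of_swnc h, wuu_of_swnc h⟩, fun h => swnc_of h.1 h.2⟩

end Pool.Agent.Results.MP_2093e0_al.SemipotentWUU
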